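import Pool.Agent.Helper56_MNT.FPL

set_option autoImplicit false

/-!
# MNT, row FDN: downward distributions
-/

namespace Pool.Agent.MNT.H56

open Pool.Agent.MNT

open scoped Classical

/-- the mass of a distribution at an element above its support -/
theorem mm_full {V : Type} [Fintype V] [PartialOrder V] (D : V → ℝ) (c c' : V)
    (hD : ∀ j, D j ≠ 0 → j ≤ c) (h1 : ∑ j, D j = 1) (hc : c ≤ c') : MM D c' = 1 := by
  unfold MM
  rw [← h1]
  refine Finset.sum_subset (Finset.filter_subset _ _) ?_
  intro j _ hj
  by_contra h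
  exact hj (Finset.mem_filter.2 ⟨Finset.mem_univ _, (hD j h).trans hc⟩)

/-- the difference of a distribution below the child `c` of `v` and the unit mass at `v` -/
theorem mm_kid {V : Type} [Fintype V] [PartialOrder V] [OrderTop V] (T : Tree V) {v c : V}
    (hc : c ∈ T.kids v) (D : V → ℝ) (hD : ∀ j, D j ≠ 0 → j ≤ c) (h1 : ∑ j, D j = 1) (c' : V)
    (h : MM (fun j => D j - dl v j) c' ≠ 0) : c' ≤ c := by
  obtain ⟨hct, hcv⟩ := (T.mem_kids v c).1 hc
  have hlt : c < v := by
    rw [← hcv]
    exact T.lt_par c hct
  by_contra hcc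
  apply h
  rw [mm_sub, mm_dl]
  by_cases h2 : c < c'
  · have h3 : v ≤ c' := by
      rw [← hcv]
      exact T.par_le c c' h2
    rw [mm_full D c c' hD h1 h2.le, if_pos h3, sub_self]
  · have h3 : ¬ v ≤ c' := fun h4 => h2 (hlt.trans_le h4)
    rw [if_neg h3, sub_zero]
    unfold MM
    refine Finset.sum_eq_zero fun j hj => ?_
    by_contra h4
    rcases T.comparable j c c' (hD j h4) (Finset.mem_filter.1 hj).2 with h5 | h5
    · rcases eq_or_lt_of_le h5 with h6 | h6
      · exact hcc h6.ge
      · exact h2 h6
    · exact hcc h5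

/-- the energy of the difference -/
theorem qq_kid {V : Type} [Fintype V] [PartialOrder V] [OrderTop V] (T : Tree V) {v c : V}
    (hc : c ∈ T.kids v) (l : V → ℝ) (D : V → ℝ) (hD : ∀ j, D j ≠ 0 → j ≤ c)
    (h1 : ∑ j, D j = 1) :
    QQ l (fun j => D j - dl v j) = QQ l (fun j => D j - dl c j) + l c := by
  obtain ⟨hct, hcv⟩ := (T.mem_kids v c).1 hc
  have hlt : c < v := by
    rw [← hcv]
    exact T.lt_par c hct
  have h2 : MM (fun j => D j - dl c j) c = 0 := by
    rw [mm_sub, mm_dl, if_pos le_rfl, mm_full D c c hD h1 le_rfl, sub_self]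
  have h3 : ∀ c', MM (fun j => D j - dl v j) c' = MM (fun j => D j - dl c j) c' +
      if c' = c then 1 else 0 := by
    intro c'
    rw [mm_sub, mm_sub, mm_dl, mm_dl]
    by_cases h4 : c' = c
    · have h5 : ¬ v ≤ c := not_le_of_gt hlt
      rw [h4, if_neg h5, if_pos le_rfl, if_pos rfl]
      ring
    · by_cases h5 : v ≤ c'
      · rw [if_pos h5, if_pos (hlt.le.trans h5), if_neg h4, add_zero]
      · have h6 : ¬ c ≤ c' := by
          intro h7
          apply h5
          rw [← hcv]
          exact T.par_le c c' (lt_of_le_of_ne h7 (Ne.symm h4))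
        rw [if_neg h5, if_neg h6, if_neg h4, add_zero]
  unfold QQ
  have h4 : ∀ c', l c' * MM (fun j => D j - dl v j) c' ^ 2 =
      l c' * MM (fun j => D j - dl c j) c' ^ 2 + if c' = c then l c else 0 := by
    intro c'
    rw [h3]
    by_cases h5 : c' = c
    · rw [if_pos h5, if_pos h5, h5, h2]
      ring
    · rw [if_neg h5, if_neg h5, add_zero, add_zero]
  rw [Finset.sum_congr rfl fun c' _ => h4 c', Finset.sum_add_distrib,
    Finset.sum_ite_eq' (Finset.univ.filter fun c : V => c ≠ ⊤) c, if_pos]
  exact Finset.mem_filter.2 ⟨Finset.mem_univ _, hct⟩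

theorem fdn (fpl : FplStmt) : FdnStmt := by
  intro V _ _ _ T G l s r hl hR v
  have hs0 : ∀ c, 0 ≤ s c := by
    intro c
    by_cases h : G c
    · rw [hR.s_grd c h]
    · exact (hR.s_pos c h).le
  induction v using WellFoundedLT.induction with
  | ind v ih =>
    by_cases hG : G v
    · refine ⟨dl v, ?_, ?_, ?_, ?_⟩
      · intro j
        unfold dl
        split_ifs
        · exact zero_le_one
        · exact le_rfl
      · intro j hj
        have h1 : j = v := by
          by_contra h
          apply hj
          unfold dl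
          rw [if_neg h]
        rw [h1]
        exact ⟨hG, le_rfl⟩
      · unfold dl
        rw [Finset.sum_ite_eq' Finset.univ v, if_pos (Finset.mem_univ _)]
      · rw [hR.s_grd v hG]
        unfold QQ
        rw [Finset.sum_eq_zero]
        intro c _
        rw [mm_sub, sub_self]
        ring
    · have hkid : ∀ c : {c // c ∈ T.kids v}, (c : V) < v := by
        intro c
        obtain ⟨h1, h2⟩ := (T.mem_kids v c).1 c.2
        have h3 := T.lt_par c h1
        rw [h2] at h3
        exact h3
      have hlc : ∀ c : {c // c ∈ T.kids v}, 0 < l c := fun c =>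
        hl c ((T.mem_kids v c).1 c.2).1
      have hex := fun c : {c // c ∈ T.kids v} => ih c (hkid c)
      choose D hD0 hDs hD1 hDQ using hex
      have hs := hR.s_pos v hG
      have hse := hR.s_eq v hG
      have hsum : ∑ c : {c // c ∈ T.kids v}, (s c + l c)⁻¹ = (s v)⁻¹ := by
        rw [hse, ← Finset.sum_coe_sort (T.kids v) (fun c => (l c + s c)⁻¹)]
        refine Finset.sum_congr rfl fun c _ => ?_
        rw [add_comm]
      have hne : Nonempty {c // c ∈ T.kids v} := by
        by_contra h
        rw [not_nonempty_iff] at h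
        rw [Finset.univ_eq_empty, Finset.sum_empty] at hsum
        exact absurd hsum.symm (inv_ne_zero hs.ne')
      have hF := fpl V l (fun c hc => (hl c hc).le) {c // c ∈ T.kids v}
        (fun c j => D c j - dl v j) (fun c => s c + l c)
        (fun c => add_pos_of_nonneg_of_pos (hs0 c) (hlc c))
        (fun c => by
          rw [qq_kid T c.2 l (D c) (fun j hj => (hDs c j hj).2) (hD1 c)]
          exact add_le_add_left (hDQ c) _)
        (fun k k' hk c _ => by
          by_contra hcon
          rw [not_or] at hcon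
          apply hk
          apply Subtype.ext
          exact T.kids_disj k.2 k'.2
            (mm_kid T k.2 (D k) (fun j hj => (hDs k j hj).2) (hD1 k) c hcon.1)
            (mm_kid T k'.2 (D k') (fun j hj => (hDs k' j hj).2) (hD1 k') c hcon.2))
      rw [hsum, inv_inv] at hF
      have hw : ∑ c : {c // c ∈ T.kids v}, (s v * (s c + l c)⁻¹) = 1 := by
        rw [← Finset.mul_sum, hsum, mul_inv_cancel₀ hs.ne']
      have hw0 : ∀ c : {c // c ∈ T.kids v}, 0 ≤ s v * (s c + l c)⁻¹ := fun c =>
        mul_nonneg hs.le (inv_nonneg.2 (add_nonneg (hs0 c) (hlc c).le))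
      refine ⟨fun j => ∑ c : {c // c ∈ T.kids v}, (s v * (s c + l c)⁻¹) * D c j, ?_, ?_, ?_, ?_⟩
      · intro j
        exact Finset.sum_nonneg fun c _ => mul_nonneg (hw0 c) (hD0 c j)
      · intro j hj
        obtain ⟨c, _, hc⟩ := Finset.exists_ne_zero_of_sum_ne_zero hj
        obtain ⟨h1, h2⟩ := hDs c j (right_ne_zero_of_mul hc)
        exact ⟨h1, h2.trans (hkid c).le⟩
      · rw [Finset.sum_comm, ← hw]
        refine Finset.sum_congr rfl fun c _ => ?_
        rw [← Finset.mul_sum, hD1, mul_one]
      · refine le_trans (le_of_eq ?_) hF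
        congr 1
        funext j
        have h1 : dl v j = ∑ c : {c // c ∈ T.kids v}, (s v * (s c + l c)⁻¹) * dl v j := by
          rw [← Finset.sum_mul, hw, one_mul]
        conv_lhs => rw [h1]
        rw [← Finset.sum_sub_distrib]
        refine Finset.sum_congr rfl fun c _ => ?_
        ring

end Pool.Agent.MNT.H56
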