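import Pool.Agent.MNT.StmtsT

set_option autoImplicit false

/-!
# MNT, row FPL: parallel combination
-/

namespace Pool.Agent.MNT.H56

open Pool.Agent.MNT

open scoped Classical

theorem mm_sum {V : Type} [Fintype V] [PartialOrder V] {K : Type} [Fintype K] (w : K → ℝ)
    (X : K → V → ℝ) (c : V) : MM (fun j => ∑ k, w k * X k j) c = ∑ k, w k * MM (X k) c := by
  unfold MM
  rw [Finset.sum_comm]
  refine Finset.sum_congr rfl fun k _ => ?_
  rw [Finset.mul_sum]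

theorem mm_sub {V : Type} [Fintype V] [PartialOrder V] (A B : V → ℝ) (c : V) :
    MM (fun j => A j - B j) c = MM A c - MM B c := by
  unfold MM
  rw [← Finset.sum_sub_distrib]

theorem mm_dl {V : Type} [Fintype V] [PartialOrder V] (x c : V) :
    MM (dl x) c = if x ≤ c then 1 else 0 := by
  unfold MM dl
  rw [Finset.sum_ite_eq' (Finset.univ.filter fun j => j ≤ c) x]
  simp only [Finset.mem_filter, Finset.mem_univ, true_and]

theorem sq_sum {K : Type} [Fintype K] (a : K → ℝ) (h : ∀ k k', k ≠ k' → a k = 0 ∨ a k' = 0) :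
    (∑ k, a k) ^ 2 = ∑ k, a k ^ 2 := by
  rw [sq, Finset.sum_mul]
  refine Finset.sum_congr rfl fun k _ => ?_
  rw [Finset.mul_sum, Finset.sum_eq_single k]
  · rw [sq]
  · intro k' _ hk
    rcases h k k' (Ne.symm hk) with h1 | h1
    · rw [h1, zero_mul]
    · rw [h1, mul_zero]
  · intro h1
    exact absurd (Finset.mem_univ k) h1

theorem fpl : FplStmt := by
  intro V _ _ _ l hl K _ _ X ρ hρ hQ hd
  obtain ⟨S, hS⟩ : ∃ S : ℝ, S = ∑ k', (ρ k')⁻¹ := ⟨_, rfl⟩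
  rw [← hS]
  have hS0 : 0 < S := by
    rw [hS]
    exact Finset.sum_pos (fun k _ => inv_pos.2 (hρ k)) Finset.univ_nonempty
  have h1 : QQ l (fun j => ∑ k, (S⁻¹ * (ρ k)⁻¹) * X k j) =
      ∑ k, (S⁻¹ * (ρ k)⁻¹) ^ 2 * QQ l (X k) := by
    unfold QQ
    have h2 : ∀ k, (S⁻¹ * (ρ k)⁻¹) ^ 2 * ∑ c with c ≠ (⊤ : V), l c * MM (X k) c ^ 2 =
        ∑ c with c ≠ (⊤ : V), l c * ((S⁻¹ * (ρ k)⁻¹) * MM (X k) c) ^ 2 := by
      intro k
      rw [Finset.mul_sum]
      exact Finset.sum_congr rfl fun c _ => by ring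
    rw [Finset.sum_congr rfl fun k _ => h2 k, Finset.sum_comm]
    refine Finset.sum_congr rfl fun c hc => ?_
    rw [mm_sum, sq_sum, Finset.mul_sum]
    intro k k' hk
    rcases hd k k' hk c (Finset.mem_filter.1 hc).2 with h3 | h3
    · left
      rw [h3, mul_zero]
    · right
      rw [h3, mul_zero]
  rw [h1]
  have h3 : ∑ k, (S⁻¹ * (ρ k)⁻¹) ^ 2 * QQ l (X k) ≤ ∑ k, (S⁻¹ * (ρ k)⁻¹) ^ 2 * ρ k :=
    Finset.sum_le_sum fun k _ => mul_le_mul_of_nonneg_left (hQ k) (sq_nonneg _)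
  refine h3.trans (le_of_eq ?_)
  have h4 : ∀ k, (S⁻¹ * (ρ k)⁻¹) ^ 2 * ρ k = S⁻¹ ^ 2 * (ρ k)⁻¹ := by
    intro k
    have := (hρ k).ne'
    field_simp
  rw [Finset.sum_congr rfl fun k _ => h4 k, ← Finset.mul_sum, ← hS]
  have := hS0.ne'
  field_simp

end Pool.Agent.MNT.H56
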